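import Mathlib
import Pool.Agent.Lib_helper4.LDK.Defs

/-!
# LDK, block STS: a Stieltjes sheet is a sheet
-/

set_option autoImplicit false

open scoped BigOperators ComplexOrder Kronecker MatrixOrder Topology
open MeasureTheory Set Matrix Filter

namespace Pool.Agent.LDK

/-- the exponential law -/
noncomputable def stsE : Measure ℝ :=
  (volume.restrict (Ioi (0 : ℝ))).withDensity fun s => ENNReal.ofReal (Real.exp (-s))

theorem stsE_integral (f : ℝ → ℝ) :
    ∫ s, f s ∂stsE = ∫ s in Ioi (0 : ℝ), Real.exp (-s) * f s := by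
  unfold stsE
  rw [integral_withDensity_eq_integral_toReal_smul (by fun_prop)
    (Eventually.of_forall fun s => ENNReal.ofReal_lt_top)]
  refine integral_congr_ae (Eventually.of_forall fun s => ?_)
  simp only [smul_eq_mul]
  rw [ENNReal.toReal_ofReal (Real.exp_pos _).le]

theorem stsE_integrable {f : ℝ → ℝ} (hf : IntegrableOn (fun s => Real.exp (-s) * f s) (Ioi 0)) :
    Integrable f stsE := by
  unfold stsE
  rw [integrable_withDensity_iff_integrable_smul' (by fun_prop)
    (Eventually.of_forall fun s => ENNReal.ofReal_lt_top)]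
  refine hf.congr (Eventually.of_forall fun s => ?_)
  simp only [smul_eq_mul]
  rw [ENNReal.toReal_ofReal (Real.exp_pos _).le]

theorem stsE_exp {c : ℝ} (hc : 0 ≤ c) : ∫ s, Real.exp (-(c * s)) ∂stsE = (1 + c)⁻¹ := by
  rw [stsE_integral]
  have h1 : ∀ s : ℝ, Real.exp (-s) * Real.exp (-(c * s)) = Real.exp (-((1 + c) * s)) := by
    intro s
    rw [← Real.exp_add]; congr 1; ring
  simp_rw [h1]
  have h2 := integral_exp_mul_Ioi (a := -(1 + c)) (by linarith) 0
  simp only [mul_zero, Real.exp_zero] at h2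
  have h3 : ∀ s : ℝ, Real.exp (-((1 + c) * s)) = Real.exp (-(1 + c) * s) := fun s => by
    congr 1; ring
  simp_rw [h3]
  rw [h2, neg_div_neg_eq, one_div]

theorem stsE_fin : IsFiniteMeasure stsE := by
  have h : Integrable (fun _ : ℝ => (1 : ℝ)) stsE := by
    apply stsE_integrable
    have h1 := Real.GammaIntegral_convergent (s := 1) one_pos
    refine h1.congr_fun (fun s _ => ?_) measurableSet_Ioi
    simp
  have h2 := (integrable_const_iff (c := (1 : ℝ))).1 h
  rcases h2 with h2 | h2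
  · exact absurd h2 one_ne_zero
  · exact h2

theorem stsE_pow4 : Integrable (fun s : ℝ => s ^ 4) stsE := by
  apply stsE_integrable
  have h1 := Real.GammaIntegral_convergent (s := 5) (by norm_num)
  refine h1.congr_fun (fun s _ => ?_) measurableSet_Ioi
  simp only
  congr 1
  have : (5 : ℝ) - 1 = ((4 : ℕ) : ℝ) := by norm_num
  rw [this, Real.rpow_natCast]

theorem stsE_pos : ∀ᵐ s ∂stsE, (0 : ℝ) < s := by
  unfold stsE
  exact (withDensity_absolutelyContinuous _ _).ae_le (ae_restrict_mem measurableSet_Ioi)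

theorem std_ae {b0 b1 C : ℝ} {ψ : ℝ → ℝ} {β al : ℝ} {μ : Measure ℝ}
    (h : StD b0 b1 C ψ β al μ) : ∀ᵐ b ∂μ, b0 ≤ b ∧ b ≤ b1 := by
  rw [ae_iff]
  exact h.supp

theorem std_fin {b0 b1 C : ℝ} {ψ : ℝ → ℝ} {β al : ℝ} {μ : Measure ℝ}
    (h : StD b0 b1 C ψ β al μ) : IsFiniteMeasure μ :=
  ⟨lt_of_le_of_lt h.mass ENNReal.ofReal_lt_top⟩

/-- **A Stieltjes sheet is a sheet.** -/
theorem std_sheet {b0 b1 C : ℝ} (hb : 0 < b0) {ψ : ℝ → ℝ} {β al : ℝ} {μ : Measure ℝ}
    (h : StD b0 b1 C ψ β al μ) (hpos : 0 < ψ 0) {l e : ℝ} (hadm : 0 ≤ l * al + e) :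
    Sheet l ψ e := by
  have hμ := std_fin h
  have hE := stsE_fin
  have hmul : Measurable fun p : ℝ × ℝ => p.1 * p.2 := by fun_prop
  have hae1 : ∀ᵐ p ∂(μ.prod stsE), b0 ≤ p.1 ∧ p.1 ≤ b1 :=
    (Measure.quasiMeasurePreserving_fst (μ := μ) (ν := stsE)).ae (std_ae h)
  have hae2 : ∀ᵐ p ∂(μ.prod stsE), (0 : ℝ) < p.2 :=
    (Measure.quasiMeasurePreserving_snd (μ := μ) (ν := stsE)).ae stsE_pos
  refine ⟨β, al, (μ.prod stsE).map fun p => p.1 * p.2, ?_, ?_, ?_, h.al0, ?_, hpos, hadm⟩
  · infer_instance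
  · rw [Measure.map_apply hmul measurableSet_Iio]
    have h1 : ∀ᵐ p ∂(μ.prod stsE), ¬ (p.1 * p.2 < 0) := by
      filter_upwards [hae1, hae2] with p h1 h2
      have : 0 < p.1 * p.2 := mul_pos (lt_of_lt_of_le hb h1.1) h2
      exact not_lt.2 this.le
    rw [ae_iff] at h1
    simp only [not_not] at h1
    exact h1
  · rw [integrable_map_measure (by fun_prop) hmul.aemeasurable]
    have h1 : Integrable (fun b : ℝ => b ^ 4) μ := by
      refine Integrable.mono' (integrable_const (b1 ^ 4)) (by fun_prop) ?_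
      filter_upwards [std_ae h] with b hb'
      have hb0 : 0 ≤ b := hb.le.trans hb'.1
      rw [Real.norm_eq_abs, abs_of_nonneg (by positivity)]
      exact pow_le_pow_left₀ hb0 hb'.2 4
    have h2 := h1.mul_prod stsE_pow4
    refine h2.congr (Eventually.of_forall fun p => ?_)
    simp only [Function.comp_apply]
    ring
  · intro x hx
    rw [h.eq x hx, integral_map hmul.aemeasurable (by fun_prop)]
    congr 1
    have hint : Integrable (fun p : ℝ × ℝ => Real.exp (-(p.1 * p.2 * x))) (μ.prod stsE) := by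
      refine Integrable.mono' (integrable_const (1 : ℝ)) (by fun_prop) ?_
      filter_upwards [hae1, hae2] with p h1 h2
      rw [Real.norm_eq_abs, abs_of_pos (Real.exp_pos _)]
      refine Real.exp_le_one_iff.2 ?_
      have : 0 < p.1 * p.2 := mul_pos (lt_of_lt_of_le hb h1.1) h2
      nlinarith
    rw [integral_prod _ hint]
    refine integral_congr_ae ?_
    filter_upwards [std_ae h] with b hb'
    have hb0 : 0 ≤ b := hb.le.trans hb'.1
    have h3 := stsE_exp (c := b * x) (mul_nonneg hb0 hx)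
    rw [← h3]
    refine integral_congr_ae (Eventually.of_forall fun s => ?_)
    simp only
    congr 1
    ring

/-- **The slope of a Stieltjes sheet.** -/
theorem std_slope {b0 b1 C : ℝ} (hb : 0 < b0) {ψ : ℝ → ℝ} {β al : ℝ} {μ : Measure ℝ}
    (h : StD b0 b1 C ψ β al μ) :
    Tendsto (fun x => ψ x / x) atTop (𝓝 al) := by
  have hμ := std_fin h
  set K := μ.real univ with hK
  have hbound : ∀ x : ℝ, 0 ≤ x → |∫ b, (1 + b * x)⁻¹ ∂μ| ≤ K := by
    intro x hx
    have h1 := norm_integral_le_of_norm_le_const (μ := μ) (f := fun b : ℝ => (1 + b * x)⁻¹)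
      (C := 1) (by
        filter_upwards [std_ae h] with b hb'
        have hb0 : 0 ≤ b := hb.le.trans hb'.1
        have h2 : 0 ≤ b * x := mul_nonneg hb0 hx
        rw [Real.norm_eq_abs, abs_of_nonneg (by positivity)]
        exact inv_le_one_of_one_le₀ (by linarith))
    rw [one_mul] at h1
    exact h1
  have hlim : Tendsto (fun x : ℝ => (|β| + K) / x) atTop (𝓝 0) :=
    tendsto_const_nhds.div_atTop tendsto_id
  rw [tendsto_iff_norm_sub_tendsto_zero]
  refine squeeze_zero' (Eventually.of_forall fun x => norm_nonneg _) ?_ hlim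
  filter_upwards [eventually_gt_atTop (0 : ℝ)] with x hx
  rw [h.eq x hx.le, Real.norm_eq_abs]
  have e1 : (β + al * x - ∫ b, (1 + b * x)⁻¹ ∂μ) / x - al =
      (β - ∫ b, (1 + b * x)⁻¹ ∂μ) / x := by
    field_simp
    ring
  rw [e1, abs_div, abs_of_pos hx]
  have h2 := hbound x hx.le
  gcongr
  exact (abs_sub _ _).trans (add_le_add le_rfl h2)

end Pool.Agent.LDK
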